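import Mathlib

set_option autoImplicit false

namespace Pool.Agent.Results.MP_19ad23_co.Counter

def E : List (ℕ × ℕ) :=
  [(0, 4), (0, 5), (0, 6), (0, 7), (0, 8), (0, 9), (0, 10), (1, 2), (1, 3), (1, 4), (1, 5), (1, 6),
   (1, 7), (1, 8), (1, 9), (1, 10), (2, 3), (2, 4), (2, 5), (2, 6), (2, 9), (2, 10), (3, 4), (3, 5),
   (3, 6), (3, 9), (3, 10), (4, 5), (4, 6), (4, 7), (4, 8), (4, 9), (4, 10), (5, 6), (5, 7), (5, 8),
   (5, 9), (5, 10), (6, 7), (6, 8), (6, 9), (6, 10), (7, 8), (7, 9), (8, 9)]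

def G : SimpleGraph (Fin 11) where
  Adj x y := (x.val, y.val) ∈ E ∨ (y.val, x.val) ∈ E
  symm := ⟨by intro x y h; exact h.symm⟩
  loopless := ⟨by intro x; revert x; decide⟩

instance : DecidableRel G.Adj := fun x y =>
  inferInstanceAs (Decidable ((x.val, y.val) ∈ E ∨ (y.val, x.val) ∈ E))

def ok (e f : ℕ × ℕ) : Bool := Nat.blt e.1 f.1 && (Nat.blt e.2 f.2 && !(Nat.beq e.2 f.1))

theorem key : (E.all fun e0 => E.all fun e1 => !(ok e0 e1) || E.all fun e2 =>
    !(ok e1 e2 && ok e0 e2) || E.all fun e3 => !(ok e2 e3 && (ok e1 e3 && ok e0 e3)) ||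
    E.all fun e4 => !(ok e3 e4 && (ok e2 e4 && (ok e1 e4 && ok e0 e4)))) = true := by
  decide +kernel

theorem adjE : ∀ x y : Fin 11, x < y → G.Adj x y → (x.val, y.val) ∈ E := by decide +kernel

theorem result : ∃ G : SimpleGraph (Fin 11), G.edgeSet.ncard = 45 ∧
    ¬ ∃ a b : Fin 5 → Fin 11, (∀ i, a i < b i ∧ G.Adj (a i) (b i)) ∧
      (∀ i j, i ≠ j → a i ≠ a j ∧ a i ≠ b j ∧ b i ≠ b j) ∧
      (∀ i j, i ≠ j → ¬ (a i < a j ∧ b j < b i)) := by
  refine ⟨G, ?_, ?_⟩
  · rw [← SimpleGraph.coe_edgeFinset, Set.ncard_coe_finset]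
    have := G.sum_degrees_eq_twice_card_edges
    have h2 : ∑ v, G.degree v = 90 := by decide +kernel
    omega
  · rintro ⟨a, b, h1, h2, h3⟩
    let s := Tuple.sort a
    have hm : Monotone (a ∘ s) := Tuple.monotone_sort a
    have hok : ∀ i j : Fin 5, i < j →
        ok ((a (s i)).val, (b (s i)).val) ((a (s j)).val, (b (s j)).val) = true := by
      intro i j hij
      have hne : s i ≠ s j := fun h => (ne_of_lt hij) (s.injective h)
      have e1 : a (s i) < a (s j) := lt_of_le_of_ne (hm hij.le) (h2 _ _ hne).1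
      have e2 : b (s i) < b (s j) := by
        rcases lt_trichotomy (b (s i)) (b (s j)) with h | h | h
        · exact h
        · exact absurd h (h2 _ _ hne).2.2
        · exact absurd ⟨e1, h⟩ (h3 _ _ hne)
      have e3 : (b (s i)).val ≠ (a (s j)).val := fun h =>
        (h2 _ _ hne.symm).2.1 (Fin.ext h.symm)
      simp only [ok, Bool.and_eq_true, Nat.blt_eq, Bool.not_eq_true']
      refine ⟨e1, e2, ?_⟩
      cases hb : Nat.beq (b (s i)).val (a (s j)).val
      · rfl
      · exact absurd (Nat.eq_of_beq_eq_true hb) e3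
    have hE : ∀ i, ((a (s i)).val, (b (s i)).val) ∈ E := fun i =>
      adjE _ _ (h1 _).1 (h1 _).2
    have k := key
    simp only [List.all_eq_true] at k
    have k1 := k _ (hE 0) _ (hE 1)
    rw [hok 0 1 (by decide)] at k1
    simp only [Bool.not_true, Bool.false_or, List.all_eq_true] at k1
    have k2 := k1 _ (hE 2)
    rw [hok 1 2 (by decide), hok 0 2 (by decide)] at k2
    simp only [Bool.and_self, Bool.not_true, Bool.false_or, List.all_eq_true] at k2
    have k3 := k2 _ (hE 3)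
    rw [hok 2 3 (by decide), hok 1 3 (by decide), hok 0 3 (by decide)] at k3
    simp only [Bool.and_self, Bool.not_true, Bool.false_or, List.all_eq_true] at k3
    have k4 := k3 _ (hE 4)
    rw [hok 3 4 (by decide), hok 2 4 (by decide), hok 1 4 (by decide), hok 0 4 (by decide)] at k4
    simp at k4

end Pool.Agent.Results.MP_19ad23_co.Counter
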